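import Pool.Agent.U544.CB.Race

/-!
# Central zeros of abelian L-functions and an unconditional smooth form of Chebyshev's bias

Let `N ≥ 1` and let `χ ≠ 1` be a Dirichlet character modulo `N`. By the theorem of Kronecker and Weber the irreducible
characters of the Galois groups of the abelian extensions `F/ℚ` are the primitive Dirichlet characters, those of
`ℚ(ζ_N)/ℚ` and of its subfields are the ones with a conductor which divides `N`. Statement (ii) of the question says
`L(1/2, χ) ≠ 0` for all of them.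

Fix `γ > π/2` and put `K(u) = e^(iγu) / Γ(1 + u)`, `Λ = ∫_0^∞ (e^(-u) - K(u)) du/u`. The sum

`S_χ(X) = ∑_p Re χ(p) p^(-1/2) K(log p / log X)`

over the primes converges absolutely, and each weight tends to `1`. We prove, without any hypothesis on zeros,

`S_χ(X) = -(m + ν/2) (log log X - Λ) + c - π i Z + O(1 / log X)`,

where `m` is the order of `L(s,χ)` at `1/2`, `ν` the Frobenius-Schur indicator of `χ`, `Z` the number of the zeros of
`L(s,χ)` in `(1/2,1)`, and `c = c(χ,γ)` is real. So the sum shows the bias which comes from the orthogonal characters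
together with the central zeros, and the possible real zeros are seen in the imaginary part only.

For `a` prime to `N` the smooth race (for the classes of `a` and `1/a`; for `a² = 1` the class of `a`)

`D_a(X) = ∑_p (([p = a] + [p = 1/a]) / 2 - [p ∤ N] / φ(N)) p^(-1/2) K(log p / log X)`

obeys, unconditionally, with `r(a)` the number of the square roots of `a` modulo `N`,

`D_a(X) = -(∑_{χ ≠ 1} Re χ(a) m(χ) + (r(a) - 1)/2) (log log X - Λ) / φ(N) + c
          - (π i / φ(N)) ∑_{χ ≠ 1} Re χ(a) Z(χ) + O(1 / log X)`.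

Chebyshev's bias `-(r(a) - 1) / (2 φ(N))` against the classes with many square roots (Rubinstein and Sarnak; Aoki and
Koyama under the deep Riemann hypothesis) is therefore present for all classes, unconditionally in this smooth form, if
and only if statement (ii) holds for `ℚ(ζ_N)` and all its subfields; it is enough to look at the primes which split
completely in `ℚ(ζ_N)`, that is at `a = 1`, and at one sequence of numbers `X`. The sharper law with `c` real and no
further terms holds if and only if there are no zeros in `[1/2,1)`.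

Proof: the rotated mean of the starting library `Pool.Agent.N41.RM` is applied to `L(s,χ) L(s,χ̄)` at `1/2` and to
`L(s,χ²) L(s,χ̄²)` at `1`; the powers `p^k`, `k ≥ 3`, are removed with the rate `1 / log X`
(`Pool.Agent.U544.CB`). The case of real characters is `MP_0016c7_nt/ExactCountRealZeros`.
-/

set_option autoImplicit false

namespace Pool.Agent.Results.MP_3b6604_nt.SmoothChebyshevBias

open Filter Topology Set

variable {N : ℕ}

/-- `K(u) = e^(iγu) / Γ(1 + u)` -/
noncomputable def K (γ u : ℝ) : ℂ :=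
  Complex.exp ((γ * u : ℝ) * Complex.I) / (Real.Gamma (1 + u) : ℂ)

/-- `Λ = ∫_0^∞ (e^(-u) - e^(iγu) / Γ(1 + u)) du/u` -/
noncomputable def Lam (γ : ℝ) : ℂ := ∫ u in Ioi (0 : ℝ),
  (Complex.exp (-(u : ℂ)) - Complex.exp ((γ * u : ℝ) * Complex.I) * ((Real.Gamma (1 + u))⁻¹ : ℝ)) / u

/-- The term `Re χ(p) p^(-1/2) K(log p / log X)`. -/
noncomputable def term (χ : DirichletCharacter ℂ N) (γ X : ℝ) (p : Nat.Primes) : ℂ :=
  (((χ (p : ℕ)).re / √((p : ℕ) : ℝ) : ℝ) : ℂ) * K γ (Real.log ((p : ℕ) : ℝ) / Real.log X)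

/-- `S_χ(X) = ∑_p Re χ(p) p^(-1/2) K(log p / log X)` -/
noncomputable def S (χ : DirichletCharacter ℂ N) (γ X : ℝ) : ℂ := ∑' p, term χ γ X p

/-- The order of `L(s,χ)` at `1/2`. -/
noncomputable def order [NeZero N] (χ : DirichletCharacter ℂ N) : ℕ :=
  analyticOrderNatAt χ.LFunction (1 / 2 : ℂ)

/-- The number of the zeros of `L(s,χ)` in `(1/2,1)`, with multiplicity. -/
noncomputable def realZeros [NeZero N] (χ : DirichletCharacter ℂ N) : ℕ :=
  ∑ᶠ x ∈ Ioo (1 / 2 : ℝ) 1, analyticOrderNatAt χ.LFunction (x : ℂ)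

/-- The Frobenius-Schur indicator, the mean of `χ(g²)` over the group `(ℤ/N)ˣ` (`χ` is zero on the other residue
classes). -/
noncomputable def indicator [NeZero N] (χ : DirichletCharacter ℂ N) : ℂ :=
  (∑ g : ZMod N, χ g ^ 2) / (N.totient : ℂ)

open Classical in
/-- `([p = a] + [p = 1/a]) / 2 - [p ∤ N] / φ(N)` -/
noncomputable def weight (a : (ZMod N)ˣ) (p : ℕ) : ℝ :=
  ((if (p : ZMod N) = a then 1 else 0) + (if (p : ZMod N) = ((a⁻¹ : (ZMod N)ˣ) : ZMod N) then 1 else 0)) / 2 -
    (if IsUnit (p : ZMod N) then 1 else 0) / (N.totient : ℝ)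

/-- The term of the race `D_a(X)` for the prime `p`. -/
noncomputable def raceTerm (a : (ZMod N)ˣ) (γ X : ℝ) (p : Nat.Primes) : ℂ :=
  ((weight a p / √((p : ℕ) : ℝ) : ℝ) : ℂ) * K γ (Real.log ((p : ℕ) : ℝ) / Real.log X)

/-- The race `D_a(X)`. -/
noncomputable def D (a : (ZMod N)ˣ) (γ X : ℝ) : ℂ := ∑' p, raceTerm a γ X p

open Classical in
/-- `r(a)`, the number of the square roots of `a` modulo `N`. -/
noncomputable def r [NeZero N] (a : (ZMod N)ˣ) : ℕ :=
  (Finset.univ.filter fun b : ZMod N => b ^ 2 = (a : ZMod N)).card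

open Classical in
/-- `∑_{χ ≠ 1} Re χ(a) f(χ)`, the sum over the characters modulo `N`. -/
noncomputable def charSum [NeZero N] (f : DirichletCharacter ℂ N → ℕ) (a : (ZMod N)ˣ) : ℝ :=
  ∑ χ ∈ (Finset.univ : Finset (DirichletCharacter ℂ N)).erase 1, (χ a).re * (f χ : ℝ)

theorem indicator_eq [NeZero N] (χ : DirichletCharacter ℂ N) :
    indicator χ = (Pool.Agent.U544.CB.fs χ : ℂ) := by
  have h : (N.totient : ℂ) ≠ 0 := by
    have := Pool.Agent.U544.CB.tot_ne (N := N)
    exact_mod_cast this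
  unfold indicator
  rw [Pool.Agent.U544.CB.fs_sum, mul_div_cancel_left₀ _ h]

/-- **Main theorem.** Let `N ≥ 1` and `γ > π/2`.

* For every character `χ ≠ 1` modulo `N` the series `S_χ(X)`, `X > 1`, converges absolutely, and
  `S_χ(X) = -(m + ν/2) (log log X - Λ) + c - π i Z + O(1 / log X)` with a real number `c`.
* For every `a` prime to `N` the series `D_a(X)`, `X > 1`, converges absolutely, and with a real number `c`
  `D_a(X) = -((∑_{χ ≠ 1} Re χ(a) m(χ) + (r(a) - 1)/2) / φ(N)) (log log X - Λ) + c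
  - π i (∑_{χ ≠ 1} Re χ(a) Z(χ)) / φ(N) + O(1 / log X)`.
* Equivalent: `L(1/2,ψ) ≠ 0` for all primitive `ψ ≠ 1` of conductor dividing `N`; `L(1/2,χ) ≠ 0` for all `χ ≠ 1`
  modulo `N`; `Re D_a(X) / log log X → -(r(a) - 1) / (2 φ(N))` for all `a`; the same for `a = 1`; there are
  `c < (r(1) + 1) / (2 φ(N))` and a sequence `X → ∞` with `Re D_1(X) ≥ - c log log X`.
* Equivalent: `L(s,χ) ≠ 0` for all `1/2 ≤ s < 1` and `χ ≠ 1` modulo `N`;
  `D_1(X) = -((r(1) - 1) / (2 φ(N))) (log log X - Λ) + c + O(1 / log X)` with a real number `c`. -/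
theorem result (N : ℕ) [NeZero N] (γ : ℝ) (hγ : Real.pi / 2 < γ) :
    (∀ χ : DirichletCharacter ℂ N, χ ≠ 1 →
      (∀ X : ℝ, 1 < X → Summable fun p => ‖term χ γ X p‖) ∧
      ∃ c : ℝ, (fun X : ℝ => S χ γ X - (-(order χ + indicator χ / 2) *
        (Real.log (Real.log X) - Lam γ) + c - Real.pi * realZeros χ * Complex.I)) =O[atTop]
          (fun X : ℝ => 1 / Real.log X)) ∧
    (∀ a : (ZMod N)ˣ,
      (∀ X : ℝ, 1 < X → Summable fun p => ‖raceTerm a γ X p‖) ∧
      ∃ c : ℝ, (fun X : ℝ => D a γ X - (-((charSum order a + ((r a : ℝ) - 1) / 2) /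
        (N.totient : ℝ) : ℝ) * (Real.log (Real.log X) - Lam γ) + c -
          Real.pi * (charSum realZeros a / (N.totient : ℝ) : ℝ) * Complex.I)) =O[atTop]
            (fun X : ℝ => 1 / Real.log X)) ∧
    List.TFAE [
      ∀ (d : ℕ) [NeZero d], d ∣ N → ∀ ψ : DirichletCharacter ℂ d, ψ.IsPrimitive → ψ ≠ 1 →
        ψ.LFunction (1 / 2) ≠ 0,
      ∀ χ : DirichletCharacter ℂ N, χ ≠ 1 → χ.LFunction (1 / 2) ≠ 0,
      ∀ a : (ZMod N)ˣ, Tendsto (fun X : ℝ => (D a γ X).re / Real.log (Real.log X)) atTop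
        (𝓝 (-(((r a : ℝ) - 1) / (2 * N.totient)))),
      Tendsto (fun X : ℝ => (D (1 : (ZMod N)ˣ) γ X).re / Real.log (Real.log X)) atTop
        (𝓝 (-(((r (1 : (ZMod N)ˣ) : ℝ) - 1) / (2 * N.totient)))),
      ∃ c < ((r (1 : (ZMod N)ˣ) : ℝ) + 1) / (2 * N.totient), ∃ X : ℕ → ℝ, Tendsto X atTop atTop ∧
        ∀ n, -c * Real.log (Real.log (X n)) ≤ (D (1 : (ZMod N)ˣ) γ (X n)).re] ∧
    ((∀ χ : DirichletCharacter ℂ N, χ ≠ 1 → ∀ s : ℝ, 1 / 2 ≤ s → s < 1 → χ.LFunction (s : ℂ) ≠ 0) ↔
      ∃ c : ℝ, (fun X : ℝ => D (1 : (ZMod N)ˣ) γ X -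
        (-(((r (1 : (ZMod N)ˣ) : ℝ) - 1) / (2 * N.totient) : ℝ) * (Real.log (Real.log X) - Lam γ) +
          c)) =O[atTop] (fun X : ℝ => 1 / Real.log X)) := by
  classical
  have hlogt : Tendsto Real.log atTop atTop := Real.tendsto_log_atTop
  have hll : Tendsto (fun X : ℝ => Real.log (Real.log X)) atTop atTop := hlogt.comp hlogt
  have hφ0 : (0 : ℝ) < (N.totient : ℝ) := by
    have : 0 < N.totient := Nat.totient_pos.2 (NeZero.pos N)
    exact_mod_cast this
  have eO : ∀ a : (ZMod N)ˣ, charSum order a = Pool.Agent.U544.CB.M a := fun a => by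
    unfold charSum Pool.Agent.U544.CB.M
    refine Finset.sum_congr ?_ fun _ _ => rfl
    congr!
  have eY : ∀ a : (ZMod N)ˣ, charSum realZeros a = Pool.Agent.U544.CB.Y a := fun a => by
    unfold charSum Pool.Agent.U544.CB.Y
    refine Finset.sum_congr ?_ fun _ _ => rfl
    congr!
  have eR : ∀ a : (ZMod N)ˣ, r a = Pool.Agent.U544.CB.roots a := fun a => rfl
  have eW : ∀ (a : (ZMod N)ˣ) (p : ℕ), weight a p = Pool.Agent.U544.CB.wa a p := fun a p => by
    unfold weight Pool.Agent.U544.CB.wa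
    congr!
  have eT : ∀ (a : (ZMod N)ˣ) (X : ℝ) (p : Nat.Primes),
      raceTerm a γ X p = Pool.Agent.U544.CB.dt a γ (Real.log X) p := fun a X p => by
    unfold raceTerm Pool.Agent.U544.CB.dt
    rw [eW]
    rfl
  have eD : ∀ (a : (ZMod N)ˣ) (X : ℝ), D a γ X = Pool.Agent.U544.CB.D a γ (Real.log X) := fun a X =>
    tsum_congr fun p => eT a X p
  have hrace : ∀ a : (ZMod N)ˣ, ∃ c : ℝ, (fun X : ℝ => D a γ X -
      (-((charSum order a + ((r a : ℝ) - 1) / 2) / (N.totient : ℝ) : ℝ) *
        (Real.log (Real.log X) - Lam γ) + c -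
          Real.pi * (charSum realZeros a / (N.totient : ℝ) : ℝ) * Complex.I)) =O[atTop]
            (fun X : ℝ => 1 / Real.log X) := by
    intro a
    obtain ⟨c, hc⟩ := Pool.Agent.U544.CB.race a hγ
    refine ⟨c, (hc.comp_tendsto hlogt).congr_left fun X => ?_⟩
    simp only [Function.comp_apply]
    rw [eO, eY, eR, eD]
    rfl
  -- the limits of a law
  have lims : ∀ {W : ℝ → ℂ} {A c B : ℝ}, (fun X : ℝ => W X - (-(A : ℝ) *
      (Real.log (Real.log X) - Lam γ) + c - Real.pi * (B : ℝ) * Complex.I)) =O[atTop]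
        (fun X : ℝ => 1 / Real.log X) →
      Tendsto (fun X : ℝ => (W X).re / Real.log (Real.log X)) atTop (𝓝 (-A)) ∧
      Tendsto (fun X : ℝ => (W X).im + (Lam γ).im * ((W X).re / Real.log (Real.log X))) atTop
        (𝓝 (-(Real.pi * B))) := by
    intro W A c B hW
    have hlim := hW.trans_tendsto (tendsto_const_nhds.div_atTop hlogt)
    have e1 : ∀ X : ℝ, (W X - (-(A : ℂ) * (Real.log (Real.log X) - Lam γ) + c -
        Real.pi * (B : ℂ) * Complex.I)).re =
        (W X).re - (-A * (Real.log (Real.log X) - (Lam γ).re) + c) := by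
      intro X
      have e : (-(A : ℂ) * (Real.log (Real.log X) - Lam γ) + c - Real.pi * (B : ℂ) * Complex.I : ℂ) =
          ((-A : ℝ) : ℂ) * (((Real.log (Real.log X) : ℝ) : ℂ) - Lam γ) + (c : ℂ) -
          ((Real.pi * B : ℝ) : ℂ) * Complex.I := by
        push_cast
        ring
      rw [e]
      simp only [Complex.sub_re, Complex.add_re, Complex.re_ofReal_mul, Complex.ofReal_re,
        Complex.I_re, mul_zero, sub_zero]
    have e2 : ∀ X : ℝ, (W X - (-(A : ℂ) * (Real.log (Real.log X) - Lam γ) + c -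
        Real.pi * (B : ℂ) * Complex.I)).im = (W X).im - (A * (Lam γ).im - Real.pi * B) := by
      intro X
      have e : (-(A : ℂ) * (Real.log (Real.log X) - Lam γ) + c - Real.pi * (B : ℂ) * Complex.I : ℂ) =
          ((-A : ℝ) : ℂ) * (((Real.log (Real.log X) : ℝ) : ℂ) - Lam γ) + (c : ℂ) -
          ((Real.pi * B : ℝ) : ℂ) * Complex.I := by
        push_cast
        ring
      rw [e]
      simp only [Complex.sub_im, Complex.add_im, Complex.im_ofReal_mul, Complex.ofReal_im,
        Complex.I_im, mul_one]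
      ring
    have h1 : Tendsto (fun X : ℝ => (W X).re / Real.log (Real.log X)) atTop (𝓝 (-A)) := by
      set b : ℝ := A * (Lam γ).re + c with hb
      have k1 := ((Complex.continuous_re.tendsto 0).comp hlim).add_const b
      have k2 := (k1.div_atTop hll).add_const (-A)
      rw [zero_add] at k2
      refine k2.congr' ?_
      filter_upwards [hll.eventually_gt_atTop 0] with X hX0
      simp only [Function.comp_apply]
      rw [e1, hb]
      have hne := hX0.ne'
      field_simp
      ring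
    refine ⟨h1, ?_⟩
    have k1 := ((Complex.continuous_im.tendsto 0).comp hlim).add (h1.const_mul (Lam γ).im)
    have k2 := k1.add_const (A * (Lam γ).im - Real.pi * B)
    rw [Complex.zero_im, zero_add] at k2
    have e0 : (Lam γ).im * -A + (A * (Lam γ).im - Real.pi * B) = -(Real.pi * B) := by ring
    rw [e0] at k2
    refine k2.congr fun X => ?_
    simp only [Function.comp_apply]
    rw [e2]
    ring
  have hre : ∀ a : (ZMod N)ˣ, Tendsto (fun X : ℝ => (D a γ X).re / Real.log (Real.log X)) atTop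
      (𝓝 (-((charSum order a + ((r a : ℝ) - 1) / 2) / (N.totient : ℝ)))) := by
    intro a
    obtain ⟨c, hc⟩ := hrace a
    exact (lims hc).1
  have him : Tendsto (fun X : ℝ => (D (1 : (ZMod N)ˣ) γ X).im + (Lam γ).im *
      ((D (1 : (ZMod N)ˣ) γ X).re / Real.log (Real.log X))) atTop
        (𝓝 (-(Real.pi * (charSum realZeros (1 : (ZMod N)ˣ) / (N.totient : ℝ))))) := by
    obtain ⟨c, hc⟩ := hrace 1
    exact (lims hc).2
  -- orders and values
  have hord : ∀ (χ : DirichletCharacter ℂ N), χ ≠ 1 → ∀ x : ℝ,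
      (analyticOrderNatAt χ.LFunction (x : ℂ) = 0 ↔ χ.LFunction (x : ℂ) ≠ 0) := by
    intro χ h1 x
    have ha := (DirichletCharacter.differentiable_LFunction h1).analyticAt (x : ℂ)
    have h3 : analyticOrderAt χ.LFunction (x : ℂ) ≠ ⊤ := by
      intro h5
      apply Pool.Agent.U544.CB.ne_top h1 (x : ℂ)
      rw [ha.meromorphicOrderAt_eq, h5]
      rfl
    rw [← ha.analyticOrderAt_eq_zero, ← Nat.cast_analyticOrderNatAt h3]
    norm_cast
  have hhalf : ∀ (χ : DirichletCharacter ℂ N), χ ≠ 1 → (order χ = 0 ↔ χ.LFunction (1 / 2) ≠ 0) := by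
    intro χ h1
    have h := hord χ h1 (1 / 2)
    have e : (((1 / 2 : ℝ)) : ℂ) = 1 / 2 := by push_cast; rfl
    rw [e] at h
    exact h
  have hz0 : ∀ (χ : DirichletCharacter ℂ N), χ ≠ 1 → (realZeros χ = 0 ↔
      ∀ s : ℝ, 1 / 2 < s → s < 1 → χ.LFunction (s : ℂ) ≠ 0) := by
    intro χ h1
    have hD := (Pool.Agent.U544.CB.eg χ).ds (F := Pool.Agent.U544.CB.FF χ)
      (Pool.Agent.U544.CB.mero_FF h1) (fun _ hs => Pool.Agent.U544.CB.prod_eq χ hs)
    have hf2 : (Ioo (1 / 2 : ℝ) 1 ∩ Function.support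
        fun x : ℝ => analyticOrderNatAt χ.LFunction (x : ℂ)).Finite := by
      refine (hD.fin (1 / 2) 0).subset ?_
      rintro x ⟨hx, hx2⟩
      refine ⟨hx.1, ?_⟩
      rw [Function.mem_support] at hx2 ⊢
      rw [Complex.ofReal_zero, zero_mul, add_zero, Pool.Agent.U544.CB.order_FF h1 hx.2]
      show (2 * (analyticOrderNatAt χ.LFunction (x : ℂ) : ℤ) : ℤ) ≠ 0
      positivity
    unfold realZeros
    rw [finsum_mem_eq_sum _ hf2, Finset.sum_eq_zero_iff]
    constructor
    · intro h s hs hs1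
      rw [← hord χ h1]
      by_contra hne
      exact hne (h s (by rw [Set.Finite.mem_toFinset]; exact ⟨⟨hs, hs1⟩, hne⟩))
    · intro h s hs
      rw [Set.Finite.mem_toFinset] at hs
      exact (hord χ h1 s).2 (h s hs.1.1 hs.1.2)
  have hO0 : (∀ χ : DirichletCharacter ℂ N, χ ≠ 1 → order χ = 0) → ∀ a : (ZMod N)ˣ,
      charSum order a = 0 := by
    intro h a
    unfold charSum
    refine Finset.sum_eq_zero fun χ hχ => ?_
    rw [h χ (Finset.ne_of_mem_erase hχ), Nat.cast_zero, mul_zero]
  have hY0 : (∀ χ : DirichletCharacter ℂ N, χ ≠ 1 → realZeros χ = 0) → ∀ a : (ZMod N)ˣ,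
      charSum realZeros a = 0 := by
    intro h a
    unfold charSum
    refine Finset.sum_eq_zero fun χ hχ => ?_
    rw [h χ (Finset.ne_of_mem_erase hχ), Nat.cast_zero, mul_zero]
  have hO1 : (∀ χ : DirichletCharacter ℂ N, χ ≠ 1 → order χ = 0) ∨
      1 ≤ charSum order (1 : (ZMod N)ˣ) := by
    rw [eO]
    exact Pool.Agent.U544.CB.M_one_cases
  have hY1 : (∀ χ : DirichletCharacter ℂ N, χ ≠ 1 → realZeros χ = 0) ∨
      1 ≤ charSum realZeros (1 : (ZMod N)ˣ) := by
    rw [eY]
    exact Pool.Agent.U544.CB.Y_one_cases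
  refine ⟨fun χ h1 => ⟨fun X hX => (Pool.Agent.U544.CB.decomp χ γ (Real.log_pos hX)).1, ?_⟩,
    fun a => ⟨fun X hX => ?_, hrace a⟩, ?_, ?_⟩
  · obtain ⟨c, hc⟩ := Pool.Agent.U544.CB.law_primes h1 hγ
    refine ⟨c, (hc.comp_tendsto hlogt).congr_left fun X => ?_⟩
    simp only [Function.comp_apply]
    rw [indicator_eq]
    rfl
  · simp only [eT]
    exact Pool.Agent.U544.CB.dt_summable a γ (Real.log_pos hX)
  · tfae_have 2 → 1 := by
      intro h d _ hd ψ hψ hψ1 h0
      have hne : DirichletCharacter.changeLevel hd ψ ≠ 1 := by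
        intro h2
        apply hψ1
        apply DirichletCharacter.changeLevel_injective (R := ℂ) hd
        rw [h2, map_one]
      apply h _ hne
      rw [DirichletCharacter.LFunction_changeLevel hd ψ (Or.inl hψ1), h0, zero_mul]
    tfae_have 1 → 2 := by
      intro h χ h1
      have hM : NeZero χ.conductor := ⟨χ.conductor_ne_zero⟩
      have hdvd : χ.conductor ∣ N := χ.conductor_dvd_level
      have hlift : DirichletCharacter.changeLevel hdvd χ.primitiveCharacter = χ :=
        χ.changeLevel_primitiveCharacter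
      have hψ1 : χ.primitiveCharacter ≠ 1 := by
        intro h2
        apply h1
        rw [← hlift, h2, map_one]
      have h3 := h χ.conductor hdvd χ.primitiveCharacter χ.primitiveCharacter_isPrimitive hψ1
      have h4 : χ.LFunction (1 / 2) = χ.primitiveCharacter.LFunction (1 / 2) *
          ∏ p ∈ N.primeFactors, (1 - χ.primitiveCharacter p * (p : ℂ) ^ (-(1 / 2) : ℂ)) := by
        conv_lhs => rw [← hlift]
        rw [DirichletCharacter.LFunction_changeLevel hdvd _ (Or.inl hψ1)]
      rw [h4]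
      refine mul_ne_zero h3 (Finset.prod_ne_zero_iff.2 fun p hp => ?_)
      have hpp := Nat.prime_of_mem_primeFactors hp
      have h5 : ‖χ.primitiveCharacter p * (p : ℂ) ^ (-(1 / 2) : ℂ)‖ < 1 := by
        rw [norm_mul, Complex.norm_natCast_cpow_of_pos hpp.pos]
        have h6 : (-(1 / 2) : ℂ).re = -(1 / 2) := by simp
        rw [h6]
        have h7 : (p : ℝ) ^ (-(1 / 2) : ℝ) < 1 := Real.rpow_lt_one_of_one_lt_of_neg
          (by exact_mod_cast hpp.one_lt) (by norm_num)
        have h8 := χ.primitiveCharacter.norm_le_one (p : ZMod χ.conductor)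
        have h9 : (0 : ℝ) ≤ (p : ℝ) ^ (-(1 / 2) : ℝ) := Real.rpow_nonneg (Nat.cast_nonneg _) _
        calc _ ≤ 1 * (p : ℝ) ^ (-(1 / 2) : ℝ) := mul_le_mul_of_nonneg_right h8 h9
          _ < 1 := by linarith
      intro h6
      have h7 := (sub_eq_zero.1 h6).symm
      rw [h7, norm_one] at h5
      exact lt_irrefl _ h5
    tfae_have 2 → 3 := by
      intro h a
      have h3 := hO0 (fun χ h1 => (hhalf χ h1).2 (h χ h1)) a
      have h4 := hre a
      rw [h3, zero_add, div_div] at h4
      exact h4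
    tfae_have 3 → 4 := fun h => h 1
    tfae_have 4 → 5 := by
      intro h
      set A : ℝ := ((r (1 : (ZMod N)ˣ) : ℝ) - 1) / (2 * N.totient) with hA
      set B : ℝ := ((r (1 : (ZMod N)ˣ) : ℝ) + 1) / (2 * N.totient) with hB
      have hAB : A < B := by
        rw [hA, hB]
        gcongr
        linarith
      obtain ⟨c, hc1, hc2⟩ := exists_between hAB
      have h3 := (h.eventually (lt_mem_nhds (show -c < -A by linarith))).and
        (hll.eventually_gt_atTop 0)
      obtain ⟨X0, hX0⟩ := eventually_atTop.1 h3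
      refine ⟨c, hc2, fun n => X0 + n, tendsto_atTop_add_const_left _ _ tendsto_natCast_atTop_atTop,
        fun n => ?_⟩
      obtain ⟨h4, h5⟩ := hX0 (X0 + n) (by
        have : (0 : ℝ) ≤ n := Nat.cast_nonneg n
        linarith)
      exact ((lt_div_iff₀ h5).1 h4).le
    tfae_have 5 → 2 := by
      rintro ⟨c, hc, X, hX, hb⟩
      have h3 := (hre (1 : (ZMod N)ˣ)).comp hX
      have h4 : -c ≤ -((charSum order (1 : (ZMod N)ˣ) + ((r (1 : (ZMod N)ˣ) : ℝ) - 1) / 2) /
          (N.totient : ℝ)) := by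
        refine ge_of_tendsto h3 ?_
        filter_upwards [(hll.comp hX).eventually_gt_atTop 0] with n hn
        exact (le_div_iff₀ hn).2 (hb n)
      rcases hO1 with h5 | h5
      · intro χ h1
        exact (hhalf χ h1).1 (h5 χ h1)
      · exfalso
        have h6 : ((r (1 : (ZMod N)ˣ) : ℝ) + 1) / (2 * N.totient) ≤
            (charSum order (1 : (ZMod N)ˣ) + ((r (1 : (ZMod N)ˣ) : ℝ) - 1) / 2) / (N.totient : ℝ) := by
          rw [div_le_div_iff₀ (by positivity) hφ0]
          nlinarith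
        linarith
    tfae_finish
  · constructor
    · intro h
      have h3 := hO0 (fun χ h1 => (hhalf χ h1).2 (by
        have := h χ h1 (1 / 2) le_rfl (by norm_num)
        have e : (((1 / 2 : ℝ)) : ℂ) = 1 / 2 := by push_cast; rfl
        rw [e] at this
        exact this)) 1
      have h4 := hY0 (fun χ h1 => (hz0 χ h1).2 fun s hs hs1 => h χ h1 s hs.le hs1) 1
      obtain ⟨c, hc⟩ := hrace 1
      refine ⟨c, hc.congr_left fun X => ?_⟩
      rw [h3, h4]
      push_cast
      ring
    · rintro ⟨c, hc⟩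
      have hc' : (fun X : ℝ => D (1 : (ZMod N)ˣ) γ X -
          (-(((((r (1 : (ZMod N)ˣ) : ℝ) - 1) / (2 * N.totient) : ℝ)) : ℝ) *
            (Real.log (Real.log X) - Lam γ) + c - Real.pi * ((0 : ℝ) : ℝ) * Complex.I)) =O[atTop]
              (fun X : ℝ => 1 / Real.log X) := by
        refine hc.congr_left fun X => ?_
        push_cast
        ring
      obtain ⟨k1, k2⟩ := lims hc'
      have k3 := tendsto_nhds_unique k1 (hre 1)
      have k4 := tendsto_nhds_unique k2 him
      have k5 : charSum order (1 : (ZMod N)ˣ) = 0 := by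
        have h5 : ((r (1 : (ZMod N)ˣ) : ℝ) - 1) / (2 * N.totient) =
          (charSum order (1 : (ZMod N)ˣ) + ((r (1 : (ZMod N)ˣ) : ℝ) - 1) / 2) / (N.totient : ℝ) := by
          linarith
        rw [div_eq_div_iff (by positivity) hφ0.ne'] at h5
        have h6 : (N.totient : ℝ) * (2 * charSum order (1 : (ZMod N)ˣ)) = 0 := by linarith
        have h7 := (mul_eq_zero.1 h6).resolve_left hφ0.ne'
        linarith
      have k6 : charSum realZeros (1 : (ZMod N)ˣ) = 0 := by
        rw [mul_zero] at k4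
        have h6 : Real.pi * (charSum realZeros (1 : (ZMod N)ˣ) / (N.totient : ℝ)) = 0 := by linarith
        have h7 := (mul_eq_zero.1 h6).resolve_left Real.pi_ne_zero
        exact (div_eq_zero_iff.1 h7).resolve_right hφ0.ne'
      have k7 := hO1.resolve_right (by rw [k5]; norm_num)
      have k8 := hY1.resolve_right (by rw [k6]; norm_num)
      intro χ h1 s hs hs1
      rcases hs.lt_or_eq with h2 | h2
      · exact (hz0 χ h1).1 (k8 χ h1) s h2 hs1
      · rw [← h2]
        have e : (((1 / 2 : ℝ)) : ℂ) = 1 / 2 := by push_cast; rfl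
        rw [e]
        exact (hhalf χ h1).1 (k7 χ h1)

end Pool.Agent.Results.MP_3b6604_nt.SmoothChebyshevBias
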