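import Pool.Agent.U252.HR.FM3
import Pool.Agent.U252.HR.Fam
import Pool.Agent.U544.LI.Rat
import Pool.Agent.U544.LI.DedD

/-!
# The mean and the two extreme values of a sum over the primes of a Galois field, central zeros and odd relations

Let `F/ℚ` be a finite Galois extension with group `G` for which Artin's conjecture holds (all `L(s, χ, F/ℚ)`,
`χ ∈ Irr(G)`, are analytic for `s ≠ 1`; this is known if `G` is supersolvable),

`D_F(x) = (8/3) √x - ∑_𝔞 Λ(𝔞) N𝔞^(-1/2) min(N𝔞/x, x/N𝔞)`,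

the sum over the ideals of `F`, `Λ(𝔭^k) = log N𝔭` and `Λ(𝔞) = 0` for all other ideals. Let `c` be the sum of the
`χ(1) ord_{s=1/2} L(s, χ)` and `f ≤ c` the part which is forced by the root numbers: the sum of the `χ(1)` over the
symplectic `χ` with `W(χ) = -1`. An odd relation is an integral relation `∑ n_γ γ = 0` between members of the multiset
`Γ_F` of the ordinates with an odd sum `∑ n_γ`. We prove:

* (unconditionally) GRH for the `L(s, χ)` holds if and only if `D_F` is bounded above;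
* under GRH `limsup D_F + liminf D_F ≥ 4 c ≥ 4 f`, with equality to `4 f` if and only if the statements (ii) and (iii)
  of the question hold and there is no odd relation;
* (unconditionally) GRH, (ii), (iii) hold and there is no odd relation if and only if
  `limsup D_F = 4 f - liminf D_F < ∞`.

So two extreme values of one sum over the prime ideals decide about (ii), (iii) and the parity of all the relations in (i).
Moreover, with `M_F(X) = (1/log X) ∫_1^X D_F(x) dx/x` and nothing about relations: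

* under GRH `M_F(X) → 2 c`; (unconditionally) GRH, (ii) and (iii) hold if and only if `limsup M_F(X) ≤ 2 f`.

Proof. Under GRH `D_F(x) = 2 c + ∑ a_γ cos (γ log x) + o(1)`, `a_γ = 4 χ(1) / (1 + γ²)` (`Pool.Agent.U544.LI`). The
largest value `2 c + ∑ a_γ` is always attained; the smallest one `2 c - ∑ a_γ` is attained if and only if the phases
`π` satisfy all the relations: Kronecker's theorem in the presence of relations (`Pool.Agent.U252.HR`). For the mean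
value, in which large values of both signs may cancel, Landau's argument is carried out for the integral of `D_F`.
-/

set_option autoImplicit false

open Filter Topology NumberField IsDedekindDomain
open scoped Nat Pointwise

namespace Pool.Agent.Results.MP_3b6604_nt.SymmetricExtremes

/-- `limsup_{x → ∞} W(x) = v` -/
def LimsupIs (W : ℝ → ℝ) (v : ℝ) : Prop :=
  (∀ ε : ℝ, 0 < ε → ∀ᶠ x in atTop, W x < v + ε) ∧ (∀ ε : ℝ, 0 < ε → ∃ᶠ x in atTop, v - ε < W x)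

/-- `(1 / log X) ∫_1^X V(x) dx / x` -/
noncomputable def logMean (V : ℝ → ℝ) (X : ℝ) : ℝ := (∫ x in (1:ℝ)..X, V x / x) / Real.log X

/-- `limsup_{X → ∞} V(X) ≤ v` -/
def LimsupLe (V : ℝ → ℝ) (v : ℝ) : Prop := ∀ ε : ℝ, 0 < ε → ∀ᶠ X in atTop, V X ≤ v + ε

/-! ### the prime ideals -/

section field

variable (E : Type) [Field E] [NumberField E]

variable {E} in
open Classical in
/-- the von Mangoldt function of an ideal: `log N𝔭` for `𝔭^k`, `k ≥ 1`, and `0` otherwise -/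
noncomputable def Lam (𝔞 : Ideal (𝓞 E)) : ℝ := if IsPrimePow 𝔞 then Real.log (Ideal.absNorm 𝔞.radical) else 0

/-- `D_E(x) = (8/3) √x - ∑_𝔞 Λ(𝔞) N𝔞^(-1/2) min(N𝔞/x, x/N𝔞)` -/
noncomputable def D (x : ℝ) : ℝ :=
  8 / 3 * √x - ∑' 𝔞 : Ideal (𝓞 E), Lam 𝔞 / √(Ideal.absNorm 𝔞) * min (Ideal.absNorm 𝔞 / x) (x / Ideal.absNorm 𝔞)

end field

/-! ### Artin L-functions -/

/-- the irreducible complex characters of `G` -/
def Irr (G : Type) [Group G] : Set (G → ℂ) :=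
  {χ | ∃ (n : ℕ) (ρ : Representation ℂ G (Fin n → ℂ)), ρ.IsIrreducible ∧ χ = ρ.character}

section artin

variable (F : Type) [Field F] [NumberField F]

/-- the pairs `(P, g)`, where `P` is a prime of `F` over the prime `p` of `ℚ` and `g` induces `x ↦ x ^ (N(p)^n)`
modulo `P` -/
def frobSet (p : Ideal (𝓞 ℚ)) (n : ℕ) : Set (Ideal (𝓞 F) × (F ≃ₐ[ℚ] F)) :=
  {x | x.1.IsPrime ∧ x.1.LiesOver p ∧ ∀ y : 𝓞 F, x.2 • y - y ^ (Ideal.absNorm p ^ n) ∈ x.1}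

variable {F} in
/-- `χ(p^n)`: the mean of `χ` over the elements which induce `x ↦ x ^ (N(p)^n)` modulo a prime over `p` -/
noncomputable def frobMean (χ : (F ≃ₐ[ℚ] F) → ℂ) (p : Ideal (𝓞 ℚ)) (n : ℕ) : ℂ :=
  (∑ᶠ x ∈ frobSet F p n, χ x.2) / (frobSet F p n).ncard

variable {F} in
/-- the term `χ(p^n) / (n p^(ns))` of `log L(s, χ)` -/
noncomputable def logTerm (χ : (F ≃ₐ[ℚ] F) → ℂ) (s : ℂ) (x : HeightOneSpectrum (𝓞 ℚ) × ℕ+) : ℂ :=
  frobMean χ x.1.asIdeal x.2 / ((x.2 : ℕ) * (Ideal.absNorm x.1.asIdeal : ℂ) ^ (((x.2 : ℕ) : ℂ) * s))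

variable {F} in
/-- `Λ` is the Artin L-function `L(s, χ, F/ℚ) = exp ∑ χ(p^n) / (n p^(ns))`, and it is analytic for all `s ≠ 1` -/
def IsArtinL (χ : (F ≃ₐ[ℚ] F) → ℂ) (Λ : ℂ → ℂ) : Prop :=
  (∀ s : ℂ, s ≠ 1 → AnalyticAt ℂ Λ s) ∧
    ∀ s : ℂ, 1 < s.re → ∃ l : ℂ, HasSum (logTerm χ s) l ∧ Λ s = Complex.exp l

variable (L : ((F ≃ₐ[ℚ] F) → ℂ) → ℂ → ℂ)

/-- the multiset `Γ_F`: its members are the triples `(χ, γ, j)` with `χ ∈ Irr(G)`, `γ > 0` and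
`j < ord_{s = 1/2 + iγ} L(s, χ)` -/
def Gamma : Type :=
  {p : (((F ≃ₐ[ℚ] F) → ℂ) × ℝ) × ℕ // p.1.1 ∈ Irr (F ≃ₐ[ℚ] F) ∧ 0 < p.1.2 ∧
    p.2 < analyticOrderNatAt (L p.1.1) (1 / 2 + p.1.2 * Complex.I)}

variable {F L} in
/-- the ordinate `γ` -/
def ordinate (p : Gamma F L) : ℝ := p.1.1.2

/-- `∑_χ χ(1) ord_{s=1/2} L(s, χ)` -/
noncomputable def central : ℝ := ∑ᶠ χ ∈ Irr (F ≃ₐ[ℚ] F), (χ 1).re * analyticOrderNatAt (L χ) (1 / 2)

end artin


/-! ### the question -/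

section question

variable (F : Type) [Field F] [NumberField F]

/-- the Frobenius-Schur indicator `(1/|G|) ∑_g χ(g²)` -/
noncomputable def indicator {G : Type} [Group G] (χ : G → ℂ) : ℂ := (∑ᶠ g : G, χ (g * g)) / Nat.card G

/-- the symplectic irreducible characters -/
def Sympl (G : Type) [Group G] : Set (G → ℂ) := {χ | χ ∈ Irr G ∧ indicator χ = -1}

/-- the functional equation `Λ(s) = W Λ(1-s)`, `Λ(s) = A^(s/2) Γ_ℝ(s)^a Γ_ℝ(s+1)^b Z(s)`, with the root number `W` -/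
def IsRootNumber (Z : ℂ → ℂ) (W : ℤˣ) : Prop := ∃ (A : ℝ) (a b : ℕ), 0 < A ∧ ∀ s : ℂ, 0 < s.re → s.re < 1 →
  (A : ℂ) ^ (s / 2) * Complex.Gammaℝ s ^ a * Complex.Gammaℝ (s + 1) ^ b * Z s =
    (W : ℤ) * ((A : ℂ) ^ ((1 - s) / 2) * Complex.Gammaℝ (1 - s) ^ a * Complex.Gammaℝ (1 - s + 1) ^ b * Z (1 - s))

/-- the Riemann hypothesis for all the `L(s, χ)`, `χ ∈ Irr(G)` -/
def GRH (L : ((F ≃ₐ[ℚ] F) → ℂ) → ℂ → ℂ) : Prop := ∀ χ ∈ Irr (F ≃ₐ[ℚ] F), ∀ ρ : ℂ, 0 < ρ.re → ρ.re < 1 →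
  L χ ρ = 0 → ρ.re = 1 / 2

/-- statement (ii): `L(1/2, χ) ≠ 0` for all `χ ≠ 1` in `Irr(G)` which are not symplectic -/
def StatementII (L : ((F ≃ₐ[ℚ] F) → ℂ) → ℂ → ℂ) : Prop := ∀ χ ∈ Irr (F ≃ₐ[ℚ] F), χ ≠ (fun _ => 1) →
  χ ∉ Sympl (F ≃ₐ[ℚ] F) → L χ (1 / 2) ≠ 0

/-- statement (iii): `ord_{s=1/2} L(s, χ) = (1 - W(χ)) / 2` for the symplectic `χ` -/
def StatementIII (L : ((F ≃ₐ[ℚ] F) → ℂ) → ℂ → ℂ) (W : ((F ≃ₐ[ℚ] F) → ℂ) → ℤˣ) : Prop :=
  ∀ χ ∈ Sympl (F ≃ₐ[ℚ] F), 2 * (analyticOrderNatAt (L χ) (1 / 2) : ℤ) = 1 - W χ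

/-- `∑ χ(1)` over the symplectic `χ` with `W(χ) = -1` -/
noncomputable def forced (W : ((F ≃ₐ[ℚ] F) → ℂ) → ℤˣ) : ℝ :=
  ∑ᶠ χ ∈ {χ | χ ∈ Sympl (F ≃ₐ[ℚ] F) ∧ W χ = -1}, (χ 1).re

/-- there is no odd relation: all the integral relations `∑ n_γ γ = 0` between the members of `Γ_F` have an even sum of
coefficients -/
def NoOddRelation (L : ((F ≃ₐ[ℚ] F) → ℂ) → ℂ → ℂ) : Prop :=
  ∀ n : Gamma F L →₀ ℤ, (n.sum fun p k => (k : ℝ) * ordinate p) = 0 → Even (n.sum fun _ k => k)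

end question

section excess

variable {F : Type} [Field F] [NumberField F] [IsGalois ℚ F] {L : ((F ≃ₐ[ℚ] F) → ℂ) → ℂ → ℂ}

open Pool.Agent.U544.LI

open Classical in
/-- the part of `χ` in the forced central order -/
noncomputable def least (W : ((F ≃ₐ[ℚ] F) → ℂ) → ℤˣ) (χ : (F ≃ₐ[ℚ] F) → ℂ) : ℕ :=
  if χ ∈ Sympl (F ≃ₐ[ℚ] F) ∧ W χ = -1 then 1 else 0

lemma order_pos (hL : ∀ χ ∈ Irr (F ≃ₐ[ℚ] F), IsArtinL χ (L χ)) {χ : (F ≃ₐ[ℚ] F) → ℂ} (hχ : χ ∈ Irr (F ≃ₐ[ℚ] F)) :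
    0 < analyticOrderNatAt (L χ) (1 / 2) ↔ L χ (1 / 2) = 0 := by
  have hZ : IsArt F χ (L χ) := hL χ hχ
  exact Z_ord_pos (S := {()}) (Z := fun _ => L χ) (χ := ()) (fun _ _ s hs => hZ.1 s hs) (fun _ _ => art_two hZ) (by simp)
    (s := 1 / 2) (by norm_num)

lemma root_zero {Z : ℂ → ℂ} {W : ℤˣ} (h : IsRootNumber Z W) (hW : W = -1) : Z (1 / 2) = 0 := by
  obtain ⟨A, a, b, hA, h⟩ := h
  have h1 := h (1 / 2) (by simp) (by simp; norm_num)
  subst hW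
  have e1 : (1 - 1 / 2 : ℂ) = 1 / 2 := by norm_num
  rw [e1] at h1
  have hg : ((A : ℂ) ^ ((1 / 2 : ℂ) / 2) * Complex.Gammaℝ (1 / 2) ^ a * Complex.Gammaℝ (1 / 2 + 1) ^ b) ≠ 0 := by
    refine mul_ne_zero (mul_ne_zero ?_ (pow_ne_zero _ ?_)) (pow_ne_zero _ ?_)
    · rw [Ne, Complex.cpow_eq_zero_iff]
      push Not
      intro h2
      exact absurd (by exact_mod_cast h2) hA.ne'
    · exact Complex.Gammaℝ_ne_zero_of_re_pos (by simp)
    · exact Complex.Gammaℝ_ne_zero_of_re_pos (by simp; norm_num)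
  have h2 : ((A : ℂ) ^ ((1 / 2 : ℂ) / 2) * Complex.Gammaℝ (1 / 2) ^ a * Complex.Gammaℝ (1 / 2 + 1) ^ b) * Z (1 / 2) = 0 := by
    push_cast at h1
    linear_combination h1 / 2
  exact (mul_eq_zero.1 h2).resolve_left hg

omit [IsGalois ℚ F] in
lemma triv_not_sympl : (fun _ => 1 : (F ≃ₐ[ℚ] F) → ℂ) ∉ Sympl (F ≃ₐ[ℚ] F) := by
  rintro ⟨-, h⟩
  have hfin : Finite (F ≃ₐ[ℚ] F) := inferInstance
  have : Fintype (F ≃ₐ[ℚ] F) := Fintype.ofFinite _
  unfold indicator at h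
  rw [finsum_eq_sum_of_fintype, Finset.sum_const, Finset.card_univ, nsmul_eq_mul, mul_one, Nat.card_eq_fintype_card,
    div_self (by exact_mod_cast Fintype.card_ne_zero)] at h
  norm_num at h

lemma least_le (hL : ∀ χ ∈ Irr (F ≃ₐ[ℚ] F), IsArtinL χ (L χ)) {W : ((F ≃ₐ[ℚ] F) → ℂ) → ℤˣ}
    (hW : ∀ χ ∈ Sympl (F ≃ₐ[ℚ] F), IsRootNumber (L χ) (W χ)) {χ : (F ≃ₐ[ℚ] F) → ℂ} (hχ : χ ∈ Irr (F ≃ₐ[ℚ] F)) :
    least W χ ≤ analyticOrderNatAt (L χ) (1 / 2) := by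
  unfold least
  split_ifs with h
  · exact (order_pos hL hχ).2 (root_zero (hW χ h.1) h.2)
  · exact Nat.zero_le _

lemma statements_iff (hL : ∀ χ ∈ Irr (F ≃ₐ[ℚ] F), IsArtinL χ (L χ)) {W : ((F ≃ₐ[ℚ] F) → ℂ) → ℤˣ} :
    StatementII F L ∧ StatementIII F L W ↔
      ∀ χ ∈ Irr (F ≃ₐ[ℚ] F), analyticOrderNatAt (L χ) (1 / 2) = least W χ := by
  constructor
  · rintro ⟨h2, h3⟩ χ hχ
    unfold least
    by_cases hs : χ ∈ Sympl (F ≃ₐ[ℚ] F)
    · have h4 := h3 χ hs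
      rcases Int.units_eq_one_or (W χ) with h5 | h5
      · rw [if_neg (by rintro ⟨-, h⟩; rw [h5] at h; exact absurd h (by decide))]
        rw [h5, Units.val_one] at h4
        omega
      · rw [if_pos ⟨hs, h5⟩]
        rw [h5, Units.val_neg, Units.val_one] at h4
        omega
    · rw [if_neg (fun h => hs h.1)]
      by_contra hne
      have h6 := (order_pos hL hχ).1 (Nat.pos_of_ne_zero hne)
      by_cases h1 : χ = fun _ => 1
      · have hA : IsArt F χ (L χ) := hL χ hχ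
        have hA' : IsArt F (fun _ => 1) (L χ) := by
          rw [h1] at hA ⊢
          exact hA
        rw [art_triv hA' (by norm_num)] at h6
        exact zeta_half_ne h6
      · exact h2 χ hχ h1 hs h6
  · intro h
    refine ⟨fun χ hχ h1 hs h0 => ?_, fun χ hs => ?_⟩
    · have h4 := h χ hχ
      have h5 := (order_pos hL hχ).2 h0
      unfold least at h4
      rw [if_neg (fun h => hs h.1)] at h4
      omega
    · have h4 := h χ hs.1
      unfold least at h4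
      rcases Int.units_eq_one_or (W χ) with h5 | h5
      · rw [if_neg (by rintro ⟨-, h⟩; rw [h5] at h; exact absurd h (by decide))] at h4
        rw [h4, h5]
        simp
      · rw [if_pos ⟨hs, h5⟩] at h4
        rw [h4, h5]
        simp

omit [IsGalois ℚ F] in
lemma excess_eq (W : ((F ≃ₐ[ℚ] F) → ℂ) → ℤˣ) : central F L - forced F W =
    ∑ χ ∈ Pool.Agent.H541R3.ART.irrF (F ≃ₐ[ℚ] F),
      (dg χ : ℝ) * ((analyticOrderNatAt (L χ) (1 / 2) : ℝ) - least W χ) := by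
  classical
  have h1 : central F L = ∑ χ ∈ Pool.Agent.H541R3.ART.irrF (F ≃ₐ[ℚ] F),
      (χ 1).re * analyticOrderNatAt (L χ) (1 / 2) :=
    finsum_mem_eq_finite_toFinset_sum _ (Pool.Agent.H541R3.ART.irr_finite (G := F ≃ₐ[ℚ] F))
  have h2 : forced F W = ∑ χ ∈ Pool.Agent.H541R3.ART.irrF (F ≃ₐ[ℚ] F), (χ 1).re * (least W χ : ℝ) := by
    have h3 : forced F W = ∑ᶠ χ ∈ Irr (F ≃ₐ[ℚ] F), (χ 1).re * (least W χ : ℝ) := by
      unfold forced
      refine finsum_congr fun χ => ?_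
      by_cases hs : χ ∈ Sympl (F ≃ₐ[ℚ] F) ∧ W χ = -1
      · have hs' : χ ∈ {χ | χ ∈ Sympl (F ≃ₐ[ℚ] F) ∧ W χ = -1} := hs
        rw [finsum_eq_if, if_pos hs', finsum_eq_if, if_pos hs.1.1]
        unfold least
        rw [if_pos hs, Nat.cast_one, mul_one]
      · have hs' : χ ∉ {χ | χ ∈ Sympl (F ≃ₐ[ℚ] F) ∧ W χ = -1} := hs
        rw [finsum_eq_if, if_neg hs', finsum_eq_if]
        unfold least
        rw [if_neg hs, Nat.cast_zero, mul_zero, ite_self]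
    rw [h3]
    exact finsum_mem_eq_finite_toFinset_sum _ (Pool.Agent.H541R3.ART.irr_finite (G := F ≃ₐ[ℚ] F))
  rw [h1, h2, ← Finset.sum_sub_distrib]
  refine Finset.sum_congr rfl fun χ hχ => ?_
  rw [(dg_spec (Pool.Agent.H541R3.ART.mem_irrF.1 hχ)).1, Complex.natCast_re]
  ring

end excess

open Pool.Agent.U544.LI Pool.Agent.U252.HR in
/-- **Main theorem.** -/
theorem result : ∀ (F : Type) [Field F] [NumberField F] [IsGalois ℚ F] (L : ((F ≃ₐ[ℚ] F) → ℂ) → ℂ → ℂ),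
    (∀ χ ∈ Irr (F ≃ₐ[ℚ] F), IsArtinL χ (L χ)) →
    ∀ W : ((F ≃ₐ[ℚ] F) → ℂ) → ℤˣ, (∀ χ ∈ Sympl (F ≃ₐ[ℚ] F), IsRootNumber (L χ) (W χ)) →
    forced F W ≤ central F L ∧
    (GRH F L ↔ ∃ C, ∀ᶠ x in atTop, D F x ≤ C) ∧
    (GRH F L → ∃ v₁ v₂ : ℝ, LimsupIs (D F) v₁ ∧ LimsupIs (fun x => -D F x) v₂ ∧ 4 * central F L ≤ v₁ - v₂ ∧
      (v₁ - v₂ = 4 * forced F W ↔ StatementII F L ∧ StatementIII F L W ∧ NoOddRelation F L)) ∧
    (GRH F L ∧ StatementII F L ∧ StatementIII F L W ∧ NoOddRelation F L ↔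
      ∃ v, LimsupIs (D F) v ∧ LimsupIs (fun x => -D F x) (v - 4 * forced F W)) ∧
    (GRH F L → Tendsto (logMean (D F)) atTop (𝓝 (2 * central F L))) ∧
    (GRH F L ∧ StatementII F L ∧ StatementIII F L W ↔ LimsupLe (logMean (D F)) (2 * forced F W)) := by
  classical
  intro F _ _ _ L hL W hW
  have hZ : ∀ χ ∈ Pool.Agent.H541R3.ART.Irr (F ≃ₐ[ℚ] F), IsArt F χ (L χ) := hL
  have hd : ∀ χ ∈ Pool.Agent.H541R3.ART.irrF (F ≃ₐ[ℚ] F), 0 < dg χ := fun χ hχ =>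
    (dg_spec (Pool.Agent.H541R3.ART.mem_irrF.1 hχ)).2
  have hge : ∀ χ ∈ Pool.Agent.H541R3.ART.irrF (F ≃ₐ[ℚ] F),
      0 ≤ (dg χ : ℝ) * ((analyticOrderNatAt (L χ) (1 / 2) : ℝ) - least W χ) := by
    intro χ hχ
    have h1 := least_le hL hW (Pool.Agent.H541R3.ART.mem_irrF.1 hχ)
    have h2 : (least W χ : ℝ) ≤ analyticOrderNatAt (L χ) (1 / 2) := by exact_mod_cast h1
    exact mul_nonneg (Nat.cast_nonneg _) (sub_nonneg.2 h2)
  have he0 : 0 ≤ central F L - forced F W := by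
    rw [excess_eq]
    exact Finset.sum_nonneg hge
  have he : central F L - forced F W = 0 ↔ StatementII F L ∧ StatementIII F L W := by
    rw [statements_iff hL, excess_eq, Finset.sum_eq_zero_iff_of_nonneg hge]
    constructor
    · intro h χ hχ
      have h1 := h χ (Pool.Agent.H541R3.ART.mem_irrF.2 hχ)
      have h2 : (dg χ : ℝ) ≠ 0 := by exact_mod_cast (hd χ (Pool.Agent.H541R3.ART.mem_irrF.2 hχ)).ne'
      have h3 := (mul_eq_zero.1 h1).resolve_left h2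
      exact_mod_cast sub_eq_zero.1 h3
    · intro h χ hχ
      rw [h χ (Pool.Agent.H541R3.ART.mem_irrF.1 hχ), sub_self, mul_zero]
  have hc : central F L =
      (∑ χ ∈ Pool.Agent.H541R3.ART.irrF (F ≃ₐ[ℚ] F), dg χ * analyticOrderNatAt (L χ) (1 / 2) : ℕ) := by
    have h1 : central F L = ∑ χ ∈ Pool.Agent.H541R3.ART.irrF (F ≃ₐ[ℚ] F),
        (χ 1).re * analyticOrderNatAt (L χ) (1 / 2) :=
      finsum_mem_eq_finite_toFinset_sum _ (Pool.Agent.H541R3.ART.irr_finite (G := F ≃ₐ[ℚ] F))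
    rw [h1]
    push_cast
    refine Finset.sum_congr rfl fun χ hχ => ?_
    rw [(dg_spec (Pool.Agent.H541R3.ART.mem_irrF.1 hχ)).1, Complex.natCast_re]
  have hf : ∀ z : ℂ, z ≠ 1 / 2 → (fun z => ZD F (1 / 2 + z)) z =
      (z - 1 / 2) * ∏ χ ∈ Pool.Agent.H541R3.ART.irrF (F ≃ₐ[ℚ] F), L χ (1 / 2 + z) ^ dg χ := by
    intro z hz
    have h1 : (1 / 2 + z : ℂ) ≠ 1 := fun h => hz (by linear_combination h)
    show ZD F (1 / 2 + z) = _
    rw [art_fact hZ h1]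
    ring
  obtain ⟨c1, c2, c3⟩ := fam_forced (ld_ded F)
    (P := fun χ => χ ∈ Pool.Agent.H541R3.ART.Irr (F ≃ₐ[ℚ] F)) (S := Pool.Agent.H541R3.ART.irrF (F ≃ₐ[ℚ] F))
    (Z := L) (d := dg) (fun χ => Pool.Agent.H541R3.ART.mem_irrF.symm) hd
    (fun χ hχ s hs => (hZ χ (Pool.Agent.H541R3.ART.mem_irrF.1 hχ)).1 s hs)
    (fun χ hχ => art_two (hZ χ (Pool.Agent.H541R3.ART.mem_irrF.1 hχ))) hf (D := D F)
    (fun x hx => D_ideal F hx) hc (fo := forced F W) (by linarith)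
  have hs : central F L = forced F W ↔ StatementII F L ∧ StatementIII F L W := by
    rw [← he, sub_eq_zero]
  obtain ⟨m1, m2⟩ := fam_first (ld_ded F)
    (P := fun χ => χ ∈ Pool.Agent.H541R3.ART.Irr (F ≃ₐ[ℚ] F)) (S := Pool.Agent.H541R3.ART.irrF (F ≃ₐ[ℚ] F))
    (Z := L) (d := dg) (fun χ => Pool.Agent.H541R3.ART.mem_irrF.symm) hd
    (fun χ hχ s hs => (hZ χ (Pool.Agent.H541R3.ART.mem_irrF.1 hχ)).1 s hs)
    (fun χ hχ => art_two (hZ χ (Pool.Agent.H541R3.ART.mem_irrF.1 hχ))) hf (D := D F)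
    (fun x hx => D_ideal F hx) hc
  refine ⟨by linarith, c1, ?_, ?_, m1, ?_⟩
  · intro hG
    obtain ⟨v₁, v₂, h1, h2, h3, h4⟩ := c2 hG
    refine ⟨v₁, v₂, h1, h2, h3, ?_⟩
    rw [h4, hs, and_assoc]
    rfl
  · rw [hs, and_assoc] at c3
    exact c3
  · have h3 : LimsupLe (logMean (D F)) (2 * forced F W) ↔ GRH F L ∧ 2 * central F L ≤ 2 * forced F W :=
      m2 (2 * forced F W)
    rw [h3, ← hs]
    constructor
    · rintro ⟨h4, h5⟩
      exact ⟨h4, by rw [h5]⟩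
    · rintro ⟨h4, h5⟩
      exact ⟨h4, le_antisymm (by linarith) (by linarith)⟩

end Pool.Agent.Results.MP_3b6604_nt.SymmetricExtremes
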