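import Pool.Agent.U544.LI.Rat

/-!
# The whole question at `F`, with the Riemann hypothesis, is one inequality for the prime ideals of `F`

Let `F/ℚ` be a finite Galois extension with group `G` for which Artin's conjecture holds (all `L(s, χ, F/ℚ)`,
`χ ∈ Irr(G)`, are analytic for `s ≠ 1`; this is known if `G` is supersolvable), and let

`D_F(x) = (8/3) √x - ∑_𝔞 Λ(𝔞) N𝔞^(-1/2) min(N𝔞/x, x/N𝔞)`,

the sum over the ideals of `F`, `Λ(𝔭^k) = log N𝔭` and `Λ(𝔞) = 0` for all other ideals: a smoothed error term in the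
count of the prime ideals. Fix any `λ > 0` and look at the logarithmic mean

`M_F(X) = (1 / log X) ∫_1^X exp (λ D_F(x)) dx/x`.

Let `Γ_F` be the multiset of the question, `a_γ = 4 λ χ(1) / (1 + γ²)` for a member `γ` of `Γ_F` which belongs to `χ`,

`V = exp (2 λ ∑' χ(1)) ∏_{γ ∈ Γ_F} I_0(a_γ)`,

where `∑'` is the sum over the symplectic `χ ∈ Irr(G)` with root number `W(χ) = -1`, and let

`e = ∑_χ χ(1) ord_{s=1/2} L(s, χ) - ∑' χ(1)`

be the excess of the central orders. Then, for every single `λ > 0`: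

* `e ≥ 0`, and `e = 0` if and only if (ii) and (iii) hold for `F`;
* (unconditionally) the Riemann hypothesis for all the `L(s, χ, F/ℚ)` and the three statements (i), (ii), (iii) of the
  question hold for `F` if and only if `limsup M_F(X) ≤ V`;
* if the Riemann hypothesis holds for all the `L(s, χ, F/ℚ)`, then, without any assumption on the ordinates and on the
  central values, the limit of `M_F(X)` exists and is `V e^(2 λ e)` times the sum of
  `∏_γ I_{|n_γ|}(a_γ) / I_0(a_γ)` over all the integral linear relations `∑ n_γ γ = 0` between the members of `Γ_F`;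
* (unconditionally) `limsup M_F(X)` is at least `V e^(2 λ e)` times the sum over any finite set of relations.

So all the failures of the question at `F` (a relation, a multiple zero, a common zero, a central zero which is not
forced by the root numbers) make this one mean value larger, by an explicit factor, and nothing else does.

Proof. `(s - 1) ζ_F(s)` is entire of order one, has no zeros for `Re s ≥ 1`, and `-ζ_F'/ζ_F` has nonnegative
coefficients; for such a function the explicit formula for `D_F` has the positive residues `4 m_γ / (1 + γ²)` and the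
general theorems of `Pool.Agent.U544.LI` apply (see MP_0f5a55_nt, ArtinMeanValue). The factorization
`ζ_F(s) = ∏_χ L(s, χ)^χ(1)` is proved from the definition of the Artin L-functions. A symplectic `χ` with
`W(χ) = -1` has a zero at `1/2` by its functional equation, and `ζ(1/2) ≠ 0`.
-/

set_option autoImplicit false

open Filter Topology NumberField IsDedekindDomain
open scoped Nat Pointwise

namespace Pool.Agent.Results.MP_3b6604_nt.WholeQuestion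

/-- `I_k(x) = ∑ (x/2)^(2j+k) / (j! (j+k)!)` -/
noncomputable def Bessel (k : ℕ) (x : ℝ) : ℝ := ∑' j : ℕ, (x / 2) ^ (2 * j + k) / ((j)! * (j + k)!)

/-! ### the prime ideals -/

section field

variable (E : Type) [Field E] [NumberField E]

variable {E} in
open Classical in
/-- the von Mangoldt function of an ideal: `log N𝔭` for `𝔭^k`, `k ≥ 1`, and `0` otherwise -/
noncomputable def Lam (𝔞 : Ideal (𝓞 E)) : ℝ := if IsPrimePow 𝔞 then Real.log (Ideal.absNorm 𝔞.radical) else 0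

/-- `D_E(x) = (8/3) √x - ∑_𝔞 Λ(𝔞) N𝔞^(-1/2) min(N𝔞/x, x/N𝔞)` -/
noncomputable def D (x : ℝ) : ℝ :=
  8 / 3 * √x - ∑' 𝔞 : Ideal (𝓞 E), Lam 𝔞 / √(Ideal.absNorm 𝔞) * min (Ideal.absNorm 𝔞 / x) (x / Ideal.absNorm 𝔞)

/-- `M_E(X) = (1 / log X) ∫_1^X exp (λ D_E(x)) dx/x` -/
noncomputable def M (lam X : ℝ) : ℝ := (∫ x in (1:ℝ)..X, Real.exp (lam * D E x) / x) / Real.log X

end field

/-! ### Artin L-functions -/

/-- the irreducible complex characters of `G` -/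
def Irr (G : Type) [Group G] : Set (G → ℂ) :=
  {χ | ∃ (n : ℕ) (ρ : Representation ℂ G (Fin n → ℂ)), ρ.IsIrreducible ∧ χ = ρ.character}

section artin

variable (F : Type) [Field F] [NumberField F]

/-- the pairs `(P, g)`, where `P` is a prime of `F` over the prime `p` of `ℚ` and `g` induces `x ↦ x ^ (N(p)^n)`
modulo `P` -/
def frobSet (p : Ideal (𝓞 ℚ)) (n : ℕ) : Set (Ideal (𝓞 F) × (F ≃ₐ[ℚ] F)) :=
  {x | x.1.IsPrime ∧ x.1.LiesOver p ∧ ∀ y : 𝓞 F, x.2 • y - y ^ (Ideal.absNorm p ^ n) ∈ x.1}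

variable {F} in
/-- `χ(p^n)`: the mean of `χ` over the elements which induce `x ↦ x ^ (N(p)^n)` modulo a prime over `p` -/
noncomputable def frobMean (χ : (F ≃ₐ[ℚ] F) → ℂ) (p : Ideal (𝓞 ℚ)) (n : ℕ) : ℂ :=
  (∑ᶠ x ∈ frobSet F p n, χ x.2) / (frobSet F p n).ncard

variable {F} in
/-- the term `χ(p^n) / (n p^(ns))` of `log L(s, χ)` -/
noncomputable def logTerm (χ : (F ≃ₐ[ℚ] F) → ℂ) (s : ℂ) (x : HeightOneSpectrum (𝓞 ℚ) × ℕ+) : ℂ :=
  frobMean χ x.1.asIdeal x.2 / ((x.2 : ℕ) * (Ideal.absNorm x.1.asIdeal : ℂ) ^ (((x.2 : ℕ) : ℂ) * s))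

variable {F} in
/-- `Λ` is the Artin L-function `L(s, χ, F/ℚ) = exp ∑ χ(p^n) / (n p^(ns))`, and it is analytic for all `s ≠ 1` -/
def IsArtinL (χ : (F ≃ₐ[ℚ] F) → ℂ) (Λ : ℂ → ℂ) : Prop :=
  (∀ s : ℂ, s ≠ 1 → AnalyticAt ℂ Λ s) ∧
    ∀ s : ℂ, 1 < s.re → ∃ l : ℂ, HasSum (logTerm χ s) l ∧ Λ s = Complex.exp l

variable (L : ((F ≃ₐ[ℚ] F) → ℂ) → ℂ → ℂ)

/-- the multiset `Γ_F`: its members are the triples `(χ, γ, j)` with `χ ∈ Irr(G)`, `γ > 0` and
`j < ord_{s = 1/2 + iγ} L(s, χ)` -/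
def Gamma : Type :=
  {p : (((F ≃ₐ[ℚ] F) → ℂ) × ℝ) × ℕ // p.1.1 ∈ Irr (F ≃ₐ[ℚ] F) ∧ 0 < p.1.2 ∧
    p.2 < analyticOrderNatAt (L p.1.1) (1 / 2 + p.1.2 * Complex.I)}

variable {F L} in
/-- the ordinate `γ` -/
def ordinate (p : Gamma F L) : ℝ := p.1.1.2

variable {F L} in
/-- `4 λ χ(1) / (1 + γ²)` -/
noncomputable def a (lam : ℝ) (p : Gamma F L) : ℝ := 4 * lam * (p.1.1.1 1).re / (1 + p.1.1.2 ^ 2)

/-- `∑_χ χ(1) ord_{s=1/2} L(s, χ)` -/
noncomputable def central : ℝ := ∑ᶠ χ ∈ Irr (F ≃ₐ[ℚ] F), (χ 1).re * analyticOrderNatAt (L χ) (1 / 2)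

end artin


/-! ### the question -/

section question

variable (F : Type) [Field F] [NumberField F]

/-- the Frobenius-Schur indicator `(1/|G|) ∑_g χ(g²)` -/
noncomputable def indicator {G : Type} [Group G] (χ : G → ℂ) : ℂ := (∑ᶠ g : G, χ (g * g)) / Nat.card G

/-- the symplectic irreducible characters -/
def Sympl (G : Type) [Group G] : Set (G → ℂ) := {χ | χ ∈ Irr G ∧ indicator χ = -1}

/-- the functional equation `Λ(s) = W Λ(1-s)`, `Λ(s) = A^(s/2) Γ_ℝ(s)^a Γ_ℝ(s+1)^b Z(s)`, with the root number `W` -/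
def IsRootNumber (Z : ℂ → ℂ) (W : ℤˣ) : Prop := ∃ (A : ℝ) (a b : ℕ), 0 < A ∧ ∀ s : ℂ, 0 < s.re → s.re < 1 →
  (A : ℂ) ^ (s / 2) * Complex.Gammaℝ s ^ a * Complex.Gammaℝ (s + 1) ^ b * Z s =
    (W : ℤ) * ((A : ℂ) ^ ((1 - s) / 2) * Complex.Gammaℝ (1 - s) ^ a * Complex.Gammaℝ (1 - s + 1) ^ b * Z (1 - s))

/-- the Riemann hypothesis for all the `L(s, χ)`, `χ ∈ Irr(G)` -/
def GRH (L : ((F ≃ₐ[ℚ] F) → ℂ) → ℂ → ℂ) : Prop := ∀ χ ∈ Irr (F ≃ₐ[ℚ] F), ∀ ρ : ℂ, 0 < ρ.re → ρ.re < 1 →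
  L χ ρ = 0 → ρ.re = 1 / 2

/-- statement (i): `Γ_F` is linearly independent over `ℚ` -/
def StatementI (L : ((F ≃ₐ[ℚ] F) → ℂ) → ℂ → ℂ) : Prop := LinearIndependent ℚ (ordinate (F := F) (L := L))

/-- statement (ii): `L(1/2, χ) ≠ 0` for all `χ ≠ 1` in `Irr(G)` which are not symplectic -/
def StatementII (L : ((F ≃ₐ[ℚ] F) → ℂ) → ℂ → ℂ) : Prop := ∀ χ ∈ Irr (F ≃ₐ[ℚ] F), χ ≠ (fun _ => 1) →
  χ ∉ Sympl (F ≃ₐ[ℚ] F) → L χ (1 / 2) ≠ 0

/-- statement (iii): `ord_{s=1/2} L(s, χ) = (1 - W(χ)) / 2` for the symplectic `χ` -/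
def StatementIII (L : ((F ≃ₐ[ℚ] F) → ℂ) → ℂ → ℂ) (W : ((F ≃ₐ[ℚ] F) → ℂ) → ℤˣ) : Prop :=
  ∀ χ ∈ Sympl (F ≃ₐ[ℚ] F), 2 * (analyticOrderNatAt (L χ) (1 / 2) : ℤ) = 1 - W χ

/-- `∑ χ(1)` over the symplectic `χ` with `W(χ) = -1` -/
noncomputable def forced (W : ((F ≃ₐ[ℚ] F) → ℂ) → ℤˣ) : ℝ :=
  ∑ᶠ χ ∈ {χ | χ ∈ Sympl (F ≃ₐ[ℚ] F) ∧ W χ = -1}, (χ 1).re

/-- the excess `e` of the central orders -/
noncomputable def excess (L : ((F ≃ₐ[ℚ] F) → ℂ) → ℂ → ℂ) (W : ((F ≃ₐ[ℚ] F) → ℂ) → ℤˣ) : ℝ :=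
  central F L - forced F W

/-- `V = exp (2 λ ∑' χ(1)) ∏_{γ ∈ Γ_F} I_0(a_γ)` -/
noncomputable def V (L : ((F ≃ₐ[ℚ] F) → ℂ) → ℂ → ℂ) (W : ((F ≃ₐ[ℚ] F) → ℂ) → ℤˣ) (lam : ℝ) : ℝ :=
  Real.exp (2 * lam * forced F W) * ∏' p : Gamma F L, Bessel 0 (a lam p)

/-- the integral linear relations `∑ n_γ γ = 0` between the members of `Γ_F` -/
def Relation (L : ((F ≃ₐ[ℚ] F) → ℂ) → ℂ → ℂ) : Type :=
  {n : Gamma F L →₀ ℤ // (n.sum fun p k => (k : ℝ) * ordinate p) = 0}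

variable {F} in
/-- `∏_γ I_{|n_γ|}(a_γ) / I_0(a_γ)` for a relation `n` (the factors with `n_γ = 0` are `1`) -/
noncomputable def weight {L : ((F ≃ₐ[ℚ] F) → ℂ) → ℂ → ℂ} (lam : ℝ) (n : Relation F L) : ℝ :=
  n.1.prod fun p k => Bessel k.natAbs (a lam p) / Bessel 0 (a lam p)

end question

section excess

variable {F : Type} [Field F] [NumberField F] [IsGalois ℚ F] {L : ((F ≃ₐ[ℚ] F) → ℂ) → ℂ → ℂ}

open Pool.Agent.U544.LI

open Classical in
/-- the part of `χ` in the forced central order -/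
noncomputable def least (W : ((F ≃ₐ[ℚ] F) → ℂ) → ℤˣ) (χ : (F ≃ₐ[ℚ] F) → ℂ) : ℕ :=
  if χ ∈ Sympl (F ≃ₐ[ℚ] F) ∧ W χ = -1 then 1 else 0

lemma order_pos (hL : ∀ χ ∈ Irr (F ≃ₐ[ℚ] F), IsArtinL χ (L χ)) {χ : (F ≃ₐ[ℚ] F) → ℂ} (hχ : χ ∈ Irr (F ≃ₐ[ℚ] F)) :
    0 < analyticOrderNatAt (L χ) (1 / 2) ↔ L χ (1 / 2) = 0 := by
  have hZ : IsArt F χ (L χ) := hL χ hχ
  exact Z_ord_pos (S := {()}) (Z := fun _ => L χ) (χ := ()) (fun _ _ s hs => hZ.1 s hs) (fun _ _ => art_two hZ) (by simp)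
    (s := 1 / 2) (by norm_num)

lemma root_zero {Z : ℂ → ℂ} {W : ℤˣ} (h : IsRootNumber Z W) (hW : W = -1) : Z (1 / 2) = 0 := by
  obtain ⟨A, a, b, hA, h⟩ := h
  have h1 := h (1 / 2) (by simp) (by simp; norm_num)
  subst hW
  have e1 : (1 - 1 / 2 : ℂ) = 1 / 2 := by norm_num
  rw [e1] at h1
  have hg : ((A : ℂ) ^ ((1 / 2 : ℂ) / 2) * Complex.Gammaℝ (1 / 2) ^ a * Complex.Gammaℝ (1 / 2 + 1) ^ b) ≠ 0 := by
    refine mul_ne_zero (mul_ne_zero ?_ (pow_ne_zero _ ?_)) (pow_ne_zero _ ?_)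
    · rw [Ne, Complex.cpow_eq_zero_iff]
      push Not
      intro h2
      exact absurd (by exact_mod_cast h2) hA.ne'
    · exact Complex.Gammaℝ_ne_zero_of_re_pos (by simp)
    · exact Complex.Gammaℝ_ne_zero_of_re_pos (by simp; norm_num)
  have h2 : ((A : ℂ) ^ ((1 / 2 : ℂ) / 2) * Complex.Gammaℝ (1 / 2) ^ a * Complex.Gammaℝ (1 / 2 + 1) ^ b) * Z (1 / 2) = 0 := by
    push_cast at h1
    linear_combination h1 / 2
  exact (mul_eq_zero.1 h2).resolve_left hg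

omit [IsGalois ℚ F] in
lemma triv_not_sympl : (fun _ => 1 : (F ≃ₐ[ℚ] F) → ℂ) ∉ Sympl (F ≃ₐ[ℚ] F) := by
  rintro ⟨-, h⟩
  have hfin : Finite (F ≃ₐ[ℚ] F) := inferInstance
  have : Fintype (F ≃ₐ[ℚ] F) := Fintype.ofFinite _
  unfold indicator at h
  rw [finsum_eq_sum_of_fintype, Finset.sum_const, Finset.card_univ, nsmul_eq_mul, mul_one, Nat.card_eq_fintype_card,
    div_self (by exact_mod_cast Fintype.card_ne_zero)] at h
  norm_num at h

lemma least_le (hL : ∀ χ ∈ Irr (F ≃ₐ[ℚ] F), IsArtinL χ (L χ)) {W : ((F ≃ₐ[ℚ] F) → ℂ) → ℤˣ}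
    (hW : ∀ χ ∈ Sympl (F ≃ₐ[ℚ] F), IsRootNumber (L χ) (W χ)) {χ : (F ≃ₐ[ℚ] F) → ℂ} (hχ : χ ∈ Irr (F ≃ₐ[ℚ] F)) :
    least W χ ≤ analyticOrderNatAt (L χ) (1 / 2) := by
  unfold least
  split_ifs with h
  · exact (order_pos hL hχ).2 (root_zero (hW χ h.1) h.2)
  · exact Nat.zero_le _

lemma statements_iff (hL : ∀ χ ∈ Irr (F ≃ₐ[ℚ] F), IsArtinL χ (L χ)) {W : ((F ≃ₐ[ℚ] F) → ℂ) → ℤˣ} :
    StatementII F L ∧ StatementIII F L W ↔
      ∀ χ ∈ Irr (F ≃ₐ[ℚ] F), analyticOrderNatAt (L χ) (1 / 2) = least W χ := by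
  constructor
  · rintro ⟨h2, h3⟩ χ hχ
    unfold least
    by_cases hs : χ ∈ Sympl (F ≃ₐ[ℚ] F)
    · have h4 := h3 χ hs
      rcases Int.units_eq_one_or (W χ) with h5 | h5
      · rw [if_neg (by rintro ⟨-, h⟩; rw [h5] at h; exact absurd h (by decide))]
        rw [h5, Units.val_one] at h4
        omega
      · rw [if_pos ⟨hs, h5⟩]
        rw [h5, Units.val_neg, Units.val_one] at h4
        omega
    · rw [if_neg (fun h => hs h.1)]
      by_contra hne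
      have h6 := (order_pos hL hχ).1 (Nat.pos_of_ne_zero hne)
      by_cases h1 : χ = fun _ => 1
      · have hA : IsArt F χ (L χ) := hL χ hχ
        have hA' : IsArt F (fun _ => 1) (L χ) := by
          rw [h1] at hA ⊢
          exact hA
        rw [art_triv hA' (by norm_num)] at h6
        exact zeta_half_ne h6
      · exact h2 χ hχ h1 hs h6
  · intro h
    refine ⟨fun χ hχ h1 hs h0 => ?_, fun χ hs => ?_⟩
    · have h4 := h χ hχ
      have h5 := (order_pos hL hχ).2 h0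
      unfold least at h4
      rw [if_neg (fun h => hs h.1)] at h4
      omega
    · have h4 := h χ hs.1
      unfold least at h4
      rcases Int.units_eq_one_or (W χ) with h5 | h5
      · rw [if_neg (by rintro ⟨-, h⟩; rw [h5] at h; exact absurd h (by decide))] at h4
        rw [h4, h5]
        simp
      · rw [if_pos ⟨hs, h5⟩] at h4
        rw [h4, h5]
        simp

omit [IsGalois ℚ F] in
lemma excess_eq (W : ((F ≃ₐ[ℚ] F) → ℂ) → ℤˣ) : excess F L W =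
    ∑ χ ∈ Pool.Agent.H541R3.ART.irrF (F ≃ₐ[ℚ] F),
      (dg χ : ℝ) * ((analyticOrderNatAt (L χ) (1 / 2) : ℝ) - least W χ) := by
  classical
  have h1 : central F L = ∑ χ ∈ Pool.Agent.H541R3.ART.irrF (F ≃ₐ[ℚ] F),
      (χ 1).re * analyticOrderNatAt (L χ) (1 / 2) :=
    finsum_mem_eq_finite_toFinset_sum _ (Pool.Agent.H541R3.ART.irr_finite (G := F ≃ₐ[ℚ] F))
  have h2 : forced F W = ∑ χ ∈ Pool.Agent.H541R3.ART.irrF (F ≃ₐ[ℚ] F), (χ 1).re * (least W χ : ℝ) := by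
    have h3 : forced F W = ∑ᶠ χ ∈ Irr (F ≃ₐ[ℚ] F), (χ 1).re * (least W χ : ℝ) := by
      unfold forced
      refine finsum_congr fun χ => ?_
      by_cases hs : χ ∈ Sympl (F ≃ₐ[ℚ] F) ∧ W χ = -1
      · have hs' : χ ∈ {χ | χ ∈ Sympl (F ≃ₐ[ℚ] F) ∧ W χ = -1} := hs
        rw [finsum_eq_if, if_pos hs', finsum_eq_if, if_pos hs.1.1]
        unfold least
        rw [if_pos hs, Nat.cast_one, mul_one]
      · have hs' : χ ∉ {χ | χ ∈ Sympl (F ≃ₐ[ℚ] F) ∧ W χ = -1} := hs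
        rw [finsum_eq_if, if_neg hs', finsum_eq_if]
        unfold least
        rw [if_neg hs, Nat.cast_zero, mul_zero, ite_self]
    rw [h3]
    exact finsum_mem_eq_finite_toFinset_sum _ (Pool.Agent.H541R3.ART.irr_finite (G := F ≃ₐ[ℚ] F))
  unfold excess
  rw [h1, h2, ← Finset.sum_sub_distrib]
  refine Finset.sum_congr rfl fun χ hχ => ?_
  rw [(dg_spec (Pool.Agent.H541R3.ART.mem_irrF.1 hχ)).1, Complex.natCast_re]
  ring

end excess

open Pool.Agent.U544.LI in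
/-- **Main theorem.** -/
theorem result : ∀ (F : Type) [Field F] [NumberField F] [IsGalois ℚ F] (L : ((F ≃ₐ[ℚ] F) → ℂ) → ℂ → ℂ),
    (∀ χ ∈ Irr (F ≃ₐ[ℚ] F), IsArtinL χ (L χ)) →
    ∀ W : ((F ≃ₐ[ℚ] F) → ℂ) → ℤˣ, (∀ χ ∈ Sympl (F ≃ₐ[ℚ] F), IsRootNumber (L χ) (W χ)) → ∀ lam : ℝ, 0 < lam →
    (0 ≤ excess F L W ∧ (excess F L W = 0 ↔ StatementII F L ∧ StatementIII F L W)) ∧
    (Multipliable fun p : Gamma F L => Bessel 0 (a lam p)) ∧
    (GRH F L ∧ StatementI F L ∧ StatementII F L ∧ StatementIII F L W ↔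
      ∀ ε : ℝ, 0 < ε → ∀ᶠ X in atTop, M F lam X < V F L W lam + ε) ∧
    (GRH F L → Summable (weight (L := L) lam) ∧
      Tendsto (M F lam) atTop
        (𝓝 (V F L W lam * Real.exp (2 * lam * excess F L W) * ∑' n : Relation F L, weight lam n))) ∧
    (∀ (s : Finset (Relation F L)) (ε : ℝ), 0 < ε → ∃ᶠ X in atTop,
      V F L W lam * Real.exp (2 * lam * excess F L W) * ∑ n ∈ s, weight lam n - ε < M F lam X) := by
  classical
  intro F _ _ _ L hL W hW lam hl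
  have hZ : ∀ χ ∈ Pool.Agent.H541R3.ART.Irr (F ≃ₐ[ℚ] F), IsArt F χ (L χ) := hL
  have hd : ∀ χ ∈ Pool.Agent.H541R3.ART.irrF (F ≃ₐ[ℚ] F), 0 < dg χ := fun χ hχ =>
    (dg_spec (Pool.Agent.H541R3.ART.mem_irrF.1 hχ)).2
  have hge : ∀ χ ∈ Pool.Agent.H541R3.ART.irrF (F ≃ₐ[ℚ] F),
      0 ≤ (dg χ : ℝ) * ((analyticOrderNatAt (L χ) (1 / 2) : ℝ) - least W χ) := by
    intro χ hχ
    have h1 := least_le hL hW (Pool.Agent.H541R3.ART.mem_irrF.1 hχ)
    have h2 : (least W χ : ℝ) ≤ analyticOrderNatAt (L χ) (1 / 2) := by exact_mod_cast h1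
    exact mul_nonneg (Nat.cast_nonneg _) (sub_nonneg.2 h2)
  have he0 : 0 ≤ excess F L W := by
    rw [excess_eq]
    exact Finset.sum_nonneg hge
  have he : excess F L W = 0 ↔ StatementII F L ∧ StatementIII F L W := by
    rw [statements_iff hL, excess_eq, Finset.sum_eq_zero_iff_of_nonneg hge]
    constructor
    · intro h χ hχ
      have h1 := h χ (Pool.Agent.H541R3.ART.mem_irrF.2 hχ)
      have h2 : (dg χ : ℝ) ≠ 0 := by exact_mod_cast (hd χ (Pool.Agent.H541R3.ART.mem_irrF.2 hχ)).ne'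
      have h3 := (mul_eq_zero.1 h1).resolve_left h2
      exact_mod_cast sub_eq_zero.1 h3
    · intro h χ hχ
      rw [h χ (Pool.Agent.H541R3.ART.mem_irrF.1 hχ), sub_self, mul_zero]
  have hc : Real.exp (2 * lam * central F L) = Real.exp (2 * lam *
      (∑ χ ∈ Pool.Agent.H541R3.ART.irrF (F ≃ₐ[ℚ] F), dg χ * analyticOrderNatAt (L χ) (1 / 2) : ℕ)) := by
    congr 2
    have h1 : central F L = ∑ χ ∈ Pool.Agent.H541R3.ART.irrF (F ≃ₐ[ℚ] F),
        (χ 1).re * analyticOrderNatAt (L χ) (1 / 2) :=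
      finsum_mem_eq_finite_toFinset_sum _ (Pool.Agent.H541R3.ART.irr_finite (G := F ≃ₐ[ℚ] F))
    rw [h1]
    push_cast
    refine Finset.sum_congr rfl fun χ hχ => ?_
    rw [(dg_spec (Pool.Agent.H541R3.ART.mem_irrF.1 hχ)).1, Complex.natCast_re]
  have hf : ∀ z : ℂ, z ≠ 1 / 2 → (fun z => ZD F (1 / 2 + z)) z =
      (z - 1 / 2) * ∏ χ ∈ Pool.Agent.H541R3.ART.irrF (F ≃ₐ[ℚ] F), L χ (1 / 2 + z) ^ dg χ := by
    intro z hz
    have h1 : (1 / 2 + z : ℂ) ≠ 1 := fun h => hz (by linear_combination h)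
    show ZD F (1 / 2 + z) = _
    rw [art_fact hZ h1]
    ring
  have ha : ∀ p : GamP (fun χ => χ ∈ Pool.Agent.H541R3.ART.Irr (F ≃ₐ[ℚ] F)) L,
      a lam (F := F) (L := L) p = 4 * lam * dg p.1.1.1 / (1 + p.1.1.2 ^ 2) := by
    intro p
    unfold a
    rw [(dg_spec p.2.1).1, Complex.natCast_re]
  obtain ⟨c1, c2, c3, c4, c5⟩ := crit_familyP (ld_ded F)
    (P := fun χ => χ ∈ Pool.Agent.H541R3.ART.Irr (F ≃ₐ[ℚ] F)) (S := Pool.Agent.H541R3.ART.irrF (F ≃ₐ[ℚ] F))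
    (Z := L) (d := dg) (fun χ => Pool.Agent.H541R3.ART.mem_irrF.symm) hd
    (fun χ hχ s hs => (hZ χ (Pool.Agent.H541R3.ART.mem_irrF.1 hχ)).1 s hs)
    (fun χ hχ => art_two (hZ χ (Pool.Agent.H541R3.ART.mem_irrF.1 hχ))) hf hl (D := D F)
    (fun x hx => D_ideal F hx) hc (a := a lam (F := F) (L := L)) ha
  have hVe : Real.exp (2 * lam * central F L) * (∏' p : Gamma F L, Bessel 0 (a lam p)) =
      V F L W lam * Real.exp (2 * lam * excess F L W) := by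
    unfold V
    have e1 : 2 * lam * central F L = 2 * lam * forced F W + 2 * lam * excess F L W := by
      unfold excess
      ring
    rw [e1, Real.exp_add]
    ring
  have d3 : GRH F L → Summable (weight (L := L) lam) ∧
      Tendsto (M F lam) atTop
        (𝓝 (V F L W lam * Real.exp (2 * lam * excess F L W) * ∑' n : Relation F L, weight lam n)) := by
    intro hG
    rw [← hVe]
    exact c3 hG
  have d4 : ∀ (s : Finset (Relation F L)) (ε : ℝ), 0 < ε → ∃ᶠ X in atTop,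
      V F L W lam * Real.exp (2 * lam * excess F L W) * ∑ n ∈ s, weight lam n - ε < M F lam X := by
    rw [← hVe]
    exact c4
  have d5 : GRH F L ∧ StatementI F L ↔
      ∀ ε : ℝ, 0 < ε → ∀ᶠ X in atTop, M F lam X < V F L W lam * Real.exp (2 * lam * excess F L W) + ε := by
    rw [← hVe]
    exact c5
  have hV0 : 0 < V F L W lam := by
    unfold V
    refine mul_pos (Real.exp_pos _) (lt_of_lt_of_le one_pos ?_)
    have h1 : ∀ p : Gamma F L, 1 ≤ Bessel 0 (a lam p) := by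
      intro p
      have h2 := one_le_J0 (a lam p / 2)
      rw [J0_Ik, mul_div_cancel₀ _ two_ne_zero] at h2
      exact h2
    exact ge_of_tendsto' c1.hasProd fun t =>
      Finset.prod_induction _ (fun x => 1 ≤ x) (fun a b ha hb => one_le_mul_of_one_le_of_one_le ha hb) le_rfl
        (fun p _ => h1 p)
  refine ⟨⟨he0, he⟩, c1, ?_, d3, d4⟩
  constructor
  · rintro ⟨h1, h2, h3⟩
    have h4 := d5.1 ⟨h1, h2⟩
    rw [he.2 h3, mul_zero, Real.exp_zero, mul_one] at h4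
    exact h4
  · intro h
    have h1 : 1 ≤ Real.exp (2 * lam * excess F L W) := Real.one_le_exp (by positivity)
    have h2 := d5.2 fun ε hε => (h ε hε).mono fun X hX => hX.trans_le (by nlinarith)
    refine ⟨h2.1, h2.2, he.1 ?_⟩
    by_contra hne
    have h3 : 0 < excess F L W := lt_of_le_of_ne he0 (Ne.symm hne)
    have h4 : 1 < Real.exp (2 * lam * excess F L W) := Real.one_lt_exp_iff.2 (by positivity)
    -- the zero relation
    let n0 : Relation F L := ⟨0, by simp⟩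
    have hw : weight lam n0 = 1 := by
      unfold weight
      exact Finsupp.prod_zero_index
    set ε := V F L W lam * (Real.exp (2 * lam * excess F L W) - 1) / 2 with hε
    have hε0 : 0 < ε := by
      rw [hε]
      have : 0 < Real.exp (2 * lam * excess F L W) - 1 := by linarith
      positivity
    have h5 := d4 {n0} ε hε0
    rw [Finset.sum_singleton, hw, mul_one] at h5
    obtain ⟨X, hX1, hX2⟩ := (h5.and_eventually (h ε hε0)).exists
    rw [hε] at hX1 hX2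
    nlinarith

end Pool.Agent.Results.MP_3b6604_nt.WholeQuestion
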